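import Mathlib
import Pool.Agent.N922.PQ.Lat

/-!
# PQ/LB: from the lattice to the tuple (helper441, for helper922)
-/

set_option autoImplicit false
set_option linter.all false

open Matrix
open scoped Classical

namespace Pool.Agent.N441.PQ

open Pool.Agent.N922.PQ
open Pool.Agent.N874.PP (Tup chA chB gq tau Two Ev Sq1 U0)

/-- Change of basis in the Gram matrix of a linear map. -/
theorem gram_change {L : Type} [Field L] [CharZero L] (c : L →ₗ[ℚ] ℚ) (α : L) (e e' : Fin 3 → L)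
    (M W : Matrix (Fin 3) (Fin 3) ℤ) (hM : ∀ i j, (M i j : ℚ) = c (e i * e j / α))
    (he : ∀ i, e' i = ∑ j, (W i j : L) * e j) (i j : Fin 3) :
    c (e' i * e' j / α) = (((W * M * Wᵀ) i j : ℤ) : ℚ) := by
  have h1 : e' i * e' j / α = ∑ k, ∑ l, ((W i k : ℚ) * (W j l : ℚ)) • (e k * e l / α) := by
    rw [he i, he j, Finset.sum_mul_sum, Finset.sum_div]
    refine Finset.sum_congr rfl fun k _ => ?_
    rw [Finset.sum_div]
    refine Finset.sum_congr rfl fun l _ => ?_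
    rw [Rat.smul_def]
    push_cast
    ring
  rw [h1, map_sum]
  have h2 : ∀ k l, c (e k * e l / α) = (M k l : ℚ) := fun k l => (hM k l).symm
  simp only [map_sum, map_smul, h2, smul_eq_mul]
  simp only [Matrix.mul_apply, Matrix.transpose_apply, Fin.sum_univ_three]
  push_cast
  ring

/-- Linear independence after a change of basis. -/
theorem li_change {L : Type} [Field L] [CharZero L] (e e' : Fin 3 → L)
    (W : Matrix (Fin 3) (Fin 3) ℤ) (hW : IsUnit W.det) (h : LinearIndependent ℚ e)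
    (he : ∀ i, e' i = ∑ j, (W i j : L) * e j) : LinearIndependent ℚ e' := by
  rw [Fintype.linearIndependent_iff] at h ⊢
  intro g hg
  have h1 : ∀ j, ∑ i, g i * (W i j : ℚ) = 0 := by
    refine h (fun j => ∑ i, g i * (W i j : ℚ)) ?_
    rw [← hg]
    simp only [he, Rat.smul_def, Finset.mul_sum, Finset.sum_mul, Rat.cast_sum, Rat.cast_mul,
      Rat.cast_intCast]
    rw [Finset.sum_comm]
    refine Finset.sum_congr rfl fun i _ => Finset.sum_congr rfl fun j _ => ?_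
    ring
  have hdet : (W.map (Int.castRingHom ℚ)).det ≠ 0 := by
    rw [← RingHom.mapMatrix_apply, ← RingHom.map_det]
    have h2 := hW.map (Int.castRingHom ℚ)
    exact h2.ne_zero
  have h3 : g ᵥ* (W.map (Int.castRingHom ℚ)) = 0 := by
    funext j
    rw [Pi.zero_apply, ← h1 j]
    rfl
  have h4 := Matrix.eq_zero_of_vecMul_eq_zero hdet h3
  exact fun i => congrFun h4 i

/-- The size of a transformed matrix. -/
theorem size_change (M U : Matrix (Fin 3) (Fin 3) ℤ) (h : Fin 3 → ℝ) (C : ℝ)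
    (hM : ∀ i j, |(M i j : ℝ)| ≤ C * (h i * h j)) (i j : Fin 3) :
    |(((U * M * Uᵀ) i j : ℤ) : ℝ)| ≤
      C * ((∑ k, |(U i k : ℝ)| * h k) * (∑ k, |(U j k : ℝ)| * h k)) := by
  have h1 : (((U * M * Uᵀ) i j : ℤ) : ℝ) = ∑ k, ∑ l, (U i k : ℝ) * (U j l : ℝ) * (M k l : ℝ) := by
    simp only [Matrix.mul_apply, Matrix.transpose_apply, Fin.sum_univ_three]
    push_cast
    ring
  rw [h1, Finset.sum_mul_sum, Finset.mul_sum]
  refine (Finset.abs_sum_le_sum_abs _ _).trans (Finset.sum_le_sum fun k _ => ?_)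
  rw [Finset.mul_sum]
  refine (Finset.abs_sum_le_sum_abs _ _).trans (Finset.sum_le_sum fun l _ => ?_)
  rw [abs_mul, abs_mul]
  calc |(U i k : ℝ)| * |(U j l : ℝ)| * |(M k l : ℝ)|
      ≤ |(U i k : ℝ)| * |(U j l : ℝ)| * (C * (h k * h l)) :=
        mul_le_mul_of_nonneg_left (hM k l) (by positivity)
    _ = C * (|(U i k : ℝ)| * h k * (|(U j l : ℝ)| * h l)) := by ring

/-- Cauchy-Schwarz in the reduced basis. -/
theorem cs_change (M U : Matrix (Fin 3) (Fin 3) ℤ) (c : Fin 3 → Fin 3 → ℚ)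
    (hc : ∀ i j, (M i j : ℚ) = c i j) (H : Matrix (Fin 3) (Fin 3) ℝ) (h : Fin 3 → ℝ)
    (hh : ∀ i, 0 < h i) (hH : ∀ i, (fun j => (U i j : ℝ)) ⬝ᵥ H *ᵥ (fun j => (U i j : ℝ)) = h i ^ 2)
    (C : ℝ) (hC : 0 ≤ C)
    (hcs : ∀ u v : Fin 3 → ℝ, (∑ i, ∑ j, u i * v j * (c i j : ℝ)) ^ 2 ≤
      C ^ 2 * ((u ⬝ᵥ H *ᵥ u) * (v ⬝ᵥ H *ᵥ v))) (i j : Fin 3) :
    |(((U * M * Uᵀ) i j : ℤ) : ℝ)| ≤ C * (h i * h j) := by
  have h1 : (((U * M * Uᵀ) i j : ℤ) : ℝ) = ∑ k, ∑ l, (U i k : ℝ) * (U j l : ℝ) * (c k l : ℝ) := by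
    have h2 : ∀ k l, (c k l : ℝ) = (M k l : ℝ) := by
      intro k l
      rw [← hc k l]
      push_cast
      rfl
    simp only [Matrix.mul_apply, Matrix.transpose_apply, Fin.sum_univ_three, h2]
    push_cast
    ring
  have h3 := hcs (fun k => (U i k : ℝ)) (fun k => (U j k : ℝ))
  rw [hH i, hH j, ← h1] at h3
  refine abs_le_of_sq_le_sq ?_ (mul_nonneg hC (mul_nonneg (hh i).le (hh j).le))
  refine h3.trans (le_of_eq ?_)
  ring

/-- **PQ/LB.** -/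
theorem lb (h1 : S_DET) (h2 : S_MAJ) (h3 : S_RED) (h4 : S_NF) (h5 : S_CHI) (h6 : S_NZ)
    (h7 : S_TTB) : S_LB := by
  obtain ⟨κ₀, hκ0, h4⟩ := h4
  refine ⟨⌈2 * κ₀ ^ 2⌉₊, ?_⟩
  intro L _ _ a b θ X S T s A B h hS hF α e hα hsq hns hSD hT
  obtain ⟨G, B0, hdet, hG, hB0⟩ := h1 L a b θ h hF.sq α e hα hsq hSD
  have hnorm : 0 < Algebra.norm ℚ α := by
    obtain ⟨r, hr⟩ := hsq
    have hr0 : r ≠ 0 := by
      rintro rfl
      rw [mul_zero] at hr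
      exact hα (Algebra.norm_eq_zero_iff.1 hr)
    rw [hr]
    exact mul_self_pos.2 hr0
  obtain ⟨H, hH, hHdet, hC2, hC1, v0, hv0⟩ := h2 L a b θ h X hF.pa hF.da hF.db α e hα hnorm hSD.li
  have hofG : (Matrix.of fun i j => h.co 2 (e i * e j / α)) = G.map (Int.castRingHom ℚ) := by
    ext i j
    rw [Matrix.of_apply, Matrix.map_apply, ← hG i j]
    rfl
  have hH1 : H.det = 1 := by
    rw [hHdet, hofG, ← RingHom.mapMatrix_apply, ← RingHom.map_det, hdet]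
    simp
  obtain ⟨U1, hh, hU1, hpos, hmono, hprod, hrow⟩ := h3 H hH hH1
  have hGsymm : G.IsSymm := by
    ext i j
    rw [Matrix.transpose_apply]
    have h8 : (G j i : ℚ) = (G i j : ℚ) := by rw [hG, hG, mul_comm (e j)]
    exact_mod_cast h8
  have hU1sq : U1.det * U1.det = 1 := by
    rcases Int.isUnit_iff.1 hU1 with h8 | h8 <;> rw [h8] <;> rfl
  -- the first change of basis
  obtain ⟨G1, hG1⟩ : ∃ G1, G1 = U1 * G * U1ᵀ := ⟨_, rfl⟩
  obtain ⟨B1, hB1⟩ : ∃ B1, B1 = U1 * B0 * U1ᵀ := ⟨_, rfl⟩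
  have hG1b : ∀ i j, |(G1 i j : ℝ)| ≤ hh i * hh j := by
    intro i j
    have h8 := cs_change G U1 (fun i j => h.co 2 (e i * e j / α)) hG H hh hpos hrow 1 zero_le_one
      (fun u v => by rw [one_pow, one_mul]; exact hC2 u v) i j
    rw [one_mul, ← hG1] at h8
    exact h8
  have hB1b : ∀ i j, |(B1 i j : ℝ)| ≤ (2 * X) * (hh i * hh j) := by
    intro i j
    have h8 := cs_change B0 U1 (fun i j => h.co 1 (e i * e j / α)) hB0 H hh hpos hrow (2 * X)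
      (by positivity) hC1 i j
    rw [← hB1] at h8
    exact h8
  have hG1s : G1.IsSymm := by
    rw [hG1, Matrix.IsSymm, Matrix.transpose_mul, Matrix.transpose_mul, Matrix.transpose_transpose,
      hGsymm.eq, Matrix.mul_assoc]
  have hG1d : G1.det = -1 := by
    rw [hG1, Matrix.det_mul, Matrix.det_mul, Matrix.det_transpose, hdet]
    linear_combination -hU1sq
  have hG1p : ∃ v : Fin 3 → ℤ, 0 < v ⬝ᵥ G1 *ᵥ v := by
    refine ⟨v0 ᵥ* U1⁻¹, ?_⟩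
    have h8 : (v0 ᵥ* U1⁻¹) ᵥ* U1 = v0 := by
      rw [Matrix.vecMul_vecMul, Matrix.nonsing_inv_mul _ hU1, Matrix.vecMul_one]
    have h9 : (v0 ᵥ* U1⁻¹) ⬝ᵥ G1 *ᵥ (v0 ᵥ* U1⁻¹) = v0 ⬝ᵥ G *ᵥ v0 := by
      rw [hG1, ← Matrix.mulVec_mulVec, ← Matrix.mulVec_mulVec, Matrix.mulVec_transpose, h8,
        Matrix.dotProduct_mulVec, h8]
    rw [h9]
    have h10 : ((v0 ⬝ᵥ G *ᵥ v0 : ℤ) : ℚ) = ∑ i, ∑ j, (v0 i : ℚ) * (v0 j : ℚ) *
        h.co 2 (e i * e j / α) := by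
      simp only [← hG]
      simp only [dotProduct, Matrix.mulVec, Fin.sum_univ_three]
      push_cast
      ring
    have h11 : (0 : ℚ) < ((v0 ⬝ᵥ G *ᵥ v0 : ℤ) : ℚ) := by rw [h10]; exact hv0
    exact_mod_cast h11
  obtain ⟨m, U2, hU2, hJJ, hr0, hr1, hr2⟩ := h4 G1 hh hG1s hG1d hG1p hpos hmono hprod hG1b
  -- the second change of basis
  obtain ⟨W, hW⟩ : ∃ W, W = U2 * U1 := ⟨_, rfl⟩
  have hWu : IsUnit W.det := by
    rw [hW, Matrix.det_mul]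
    exact hU2.mul hU1
  have hWG : W * G * Wᵀ = JJ := by
    rw [← hJJ, hG1, hW, Matrix.transpose_mul]
    simp only [Matrix.mul_assoc]
  obtain ⟨B2, hB2⟩ : ∃ B2, B2 = W * B0 * Wᵀ := ⟨_, rfl⟩
  have hB2' : B2 = U2 * B1 * U2ᵀ := by
    rw [hB2, hB1, hW, Matrix.transpose_mul]
    simp only [Matrix.mul_assoc]
  obtain ⟨e', he'⟩ : ∃ e' : Fin 3 → L, ∀ i, e' i = ∑ j, (W i j : L) * e j :=
    ⟨fun i => ∑ j, (W i j : L) * e j, fun i => rfl⟩
  have hli : LinearIndependent ℚ e' := li_change e e' W hWu hSD.li he'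
  have hc2 : ∀ i j, h.co 2 (e' i * e' j / α) = (JJ i j : ℚ) := by
    intro i j
    rw [gram_change (h.co 2) α e e' G W hG he' i j, hWG]
  have hc1 : ∀ i j, h.co 1 (e' i * e' j / α) = (B2 i j : ℚ) := by
    intro i j
    rw [gram_change (h.co 1) α e e' B0 W hB0 he' i j, ← hB2]
  obtain ⟨hm, hchA, hchB⟩ := h5 L a b θ h α e' hα hli hc2 B2 hc1
  have hb : ∀ i j, |(B2 i j : ℝ)| ≤ (2 * X) * ((∑ k, |(U2 i k : ℝ)| * hh k) *
      (∑ k, |(U2 j k : ℝ)| * hh k)) := by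
    intro i j
    rw [hB2']
    exact size_change B1 U2 hh (2 * X) hB1b i j
  have hs0 : ∀ i, 0 ≤ ∑ k, |(U2 i k : ℝ)| * hh k := fun i =>
    Finset.sum_nonneg fun k _ => mul_nonneg (abs_nonneg _) (hpos k).le
  have hκ : 2 * κ₀ ^ 2 ≤ (⌈2 * κ₀ ^ 2⌉₊ : ℝ) := Nat.le_ceil _
  have hX : (0 : ℝ) ≤ X := Nat.cast_nonneg _
  have hT2 : (0 : ℝ) < (2 : ℝ) ^ m := by positivity
  -- a bound for the products
  have hbd : ∀ (r s' u v : ℝ), 0 ≤ r → 0 ≤ s' → r ≤ u → s' ≤ v → ∀ t : ℝ, 0 ≤ t →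
      u * v * t = κ₀ ^ 2 → ∀ w : ℝ, |w| ≤ (2 * X) * (r * s') →
      |w| * t ≤ (⌈2 * κ₀ ^ 2⌉₊ : ℝ) * X := by
    intro r s' u v hr hs' hu hv t ht huv w hw
    have h8 : r * s' ≤ u * v := mul_le_mul hu hv hs' (hr.trans hu)
    calc |w| * t ≤ (2 * X) * (r * s') * t := mul_le_mul_of_nonneg_right hw ht
      _ ≤ (2 * X) * (u * v) * t :=
          mul_le_mul_of_nonneg_right (mul_le_mul_of_nonneg_left h8 (by positivity)) ht
      _ = (2 * κ₀ ^ 2) * X := by rw [← huv]; ring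
      _ ≤ _ := mul_le_mul_of_nonneg_right hκ hX
  refine ⟨m, ⟨B2 0 0, B2 0 1, B2 0 2, B2 1 2, B2 2 2⟩, ?_, hchA, hchB⟩
  have hbox : InBox ⌈2 * κ₀ ^ 2⌉₊ X (2 ^ m) (⟨B2 0 0, B2 0 1, B2 0 2, B2 1 2, B2 2 2⟩ : Tup ℤ) := by
    refine ⟨?_, ?_, ?_, ?_, ?_⟩
    · have h8 := hbd _ _ _ _ (hs0 0) (hs0 0) hr0 hr0 (((2 : ℝ) ^ m) ^ 2) (by positivity)
        (by field_simp) _ (hb 0 0)
      exact_mod_cast h8
    · have h8 := hbd _ _ _ _ (hs0 0) (hs0 1) hr0 hr1 ((2 : ℝ) ^ m) (by positivity)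
        (by field_simp) _ (hb 0 1)
      exact_mod_cast h8
    · have h8 := hbd _ _ _ _ (hs0 0) (hs0 2) hr0 hr2 1 zero_le_one
        (by field_simp) _ (hb 0 2)
      rw [mul_one] at h8
      exact_mod_cast h8
    · have h8 := hbd _ _ _ _ (hs0 1) (hs0 2) hr1 hr2 (((2 : ℝ) ^ m)⁻¹) (by positivity)
        (by field_simp) _ (hb 1 2)
      rw [mul_inv_le_iff₀ hT2] at h8
      exact_mod_cast h8
    · have h8 := hbd _ _ _ _ (hs0 2) (hs0 2) hr2 hr2 ((((2 : ℝ) ^ m) ^ 2)⁻¹) (by positivity)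
        (by field_simp) _ (hb 2 2)
      rw [mul_inv_le_iff₀ (by positivity)] at h8
      exact_mod_cast h8
  have hnz : B2 0 0 ≠ 0 := by
    intro h8
    refine hns (h6 L a b θ h α (e' 0) hα (hli.ne_zero 0) hsq ?_ ?_)
    · rw [hc2 0 0]
      simp [JJ]
    · rw [hc1 0 0, h8]
      simp
  refine ⟨hbox, hnz, ?_, ?_, ?_⟩
  · intro Q hQ
    obtain ⟨⟨hQ0, hQp⟩, hQ8, -⟩ := hS Q hQ
    refine h7 L a b θ h hF.sq α e e' W hα hWu he' hSD.li hc2 B2 hc1 hm Q hQp ?_ (hT Q hQ)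
    intro h8
    have h9 := Int.le_of_dvd (by norm_num) h8
    interval_cases Q
    · exact hQp.ne_one rfl
    · omega
  · intro Q hQ
    rw [hchA]
    exact hF.ra Q hQ
  · intro Q hQ
    rw [hchB]
    exact hF.rb Q hQ

end Pool.Agent.N441.PQ
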